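import Mathlib
import Pool.Agent.H39.TO.Targets

/-!
# Rows CYF, CYV of the board toh_modules: walks around a face and around a vertex
-/

namespace Pool.Agent.H32.TOH

open Pool.Agent.H57.CP Pool.Agent.H39.TO

/-- two involutions without fixed points, transitive, and a map with fibres of size two -/
structure Dih {α β : Type} (a b : Equiv.Perm α) (v : α → β) : Prop where
  aa : ∀ x, a (a x) = x
  bb : ∀ x, b (b x) = x
  a1 : ∀ x, a x ≠ x
  b1 : ∀ x, b x ≠ x
  vv : ∀ x y, v x = v y ↔ x = y ∨ y = b x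
  tr : ∀ x y, Relation.ReflTransGen (fun s t => t = a s ∨ t = b s) x y

section
variable {α β : Type} {a b : Equiv.Perm α} {v : α → β}

/-- palindromes have no fixed points -/
theorem pal (h : Dih a b v) (m : ℕ) (x : α) : ((b * a) ^ m) x ≠ b x := by
  induction m using Nat.strong_induction_on generalizing x with
  | _ m ih =>
    intro hx
    match m, ih, hx with
    | 0, _, hx => exact h.b1 x hx.symm
    | 1, _, hx =>
      rw [pow_one] at hx
      exact h.a1 x (b.injective hx)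
    | m + 2, ih, hx =>
      have e1 : (b * a) ^ (m + 2) = (b * a) * (b * a) ^ m * (b * a) := by
        rw [pow_succ, pow_succ']
      rw [e1] at hx
      have h1 : b (a (((b * a) ^ m) (b (a x)))) = b x := hx
      have h2 := congrArg a (b.injective h1)
      rw [h.aa] at h2
      refine ih m (by omega) (b (a x)) ?_
      rw [h2, h.bb]

theorem ret (h : Dih a b v) (m : ℕ) (x : α) (hv : v (((b * a) ^ m) x) = v x) : ((b * a) ^ m) x = x := by
  rcases (h.vv _ _).mp hv.symm with h1 | h1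
  · exact h1.symm
  · exact absurd h1 (pal h m x)

theorem retz (h : Dih a b v) (i j : ℤ) (hij : i ≤ j) (x : α) (hv : v (((b * a) ^ i) x) = v (((b * a) ^ j) x)) :
    ((b * a) ^ (j - i)) x = x := by
  obtain ⟨m, hm⟩ := Int.eq_ofNat_of_zero_le (sub_nonneg.mpr hij)
  have hj : j = (m : ℤ) + i := by omega
  have e1 : ((b * a) ^ j) x = ((b * a) ^ m) (((b * a) ^ i) x) := by
    rw [hj, zpow_add, zpow_natCast]
    rfl
  rw [e1] at hv
  have h1 := ret h m (((b * a) ^ i) x) hv.symm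
  have h2 : ((b * a) ^ i) (((b * a) ^ m) x) = ((b * a) ^ i) x := by
    rw [← h1]
    change ((b * a) ^ i * (b * a) ^ m) x = ((b * a) ^ m * (b * a) ^ i) x
    rw [← zpow_natCast, ← zpow_add, ← zpow_add, add_comm]
  rw [hm, zpow_natCast]
  exact ((b * a) ^ i).injective h2

theorem reach (h : Dih a b v) (x y : α) : ∃ k : ℤ, y = ((b * a) ^ k) x ∨ y = b (((b * a) ^ k) x) := by
  have h1 := h.tr x y
  induction h1 with
  | refl => exact ⟨0, Or.inl rfl⟩
  | tail _ h3 ih =>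
    obtain ⟨k, hk | hk⟩ := ih
    · rcases h3 with h3 | h3
      · refine ⟨k + 1, Or.inr ?_⟩
        rw [h3, hk, add_comm, zpow_add, zpow_one]
        change _ = b (b (a (((b * a) ^ k) x)))
        rw [h.bb]
      · refine ⟨k, Or.inr ?_⟩
        rw [h3, hk]
    · rcases h3 with h3 | h3
      · refine ⟨k - 1, Or.inl ?_⟩
        have h4 : (b * a) (((b * a) ^ (k - 1)) x) = ((b * a) ^ k) x := by
          rw [← Equiv.Perm.mul_apply, ← zpow_one_add]
          congr 1
          rw [add_sub_cancel]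
        rw [h3, hk, ← h4]
        change a (b (b (a _))) = _
        rw [h.bb, h.aa]
      · refine ⟨k, Or.inl ?_⟩
        rw [h3, hk, h.bb]

theorem vreach (h : Dih a b v) (x : α) : Set.range v = Set.range fun k : ℤ => v (((b * a) ^ k) x) := by
  apply Set.Subset.antisymm
  · rintro _ ⟨y, rfl⟩
    obtain ⟨k, hk | hk⟩ := reach h x y
    · exact ⟨k, by rw [hk]⟩
    · exact ⟨k, (h.vv _ _).mpr (Or.inr hk)⟩
  · rintro _ ⟨k, rfl⟩
    exact ⟨_, rfl⟩

theorem per_iff (m : ℤ) (x : α) : ((b * a) ^ m) x = x ↔ (MulAction.period (b * a) x : ℤ) ∣ m := by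
  have h1 := @MulAction.zpow_smul_eq_iff_period_dvd α (Equiv.Perm α) _ _ m (b * a) x
  rwa [Equiv.Perm.smul_def] at h1

theorem enc_zero (h : Dih a b v) (x : α) (hn : MulAction.period (b * a) x = 0) : (Set.range v).encard = ⊤ := by
  rw [vreach h x, Set.encard_eq_top_iff]
  apply Set.infinite_range_of_injective
  intro i j hij
  have hij' : v (((b * a) ^ i) x) = v (((b * a) ^ j) x) := hij
  rcases le_total i j with hle | hle
  · have := retz h i j hle x hij'
    rw [per_iff, hn] at this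
    rw [Nat.cast_zero, zero_dvd_iff] at this
    omega
  · have := retz h j i hle x hij'.symm
    rw [per_iff, hn] at this
    rw [Nat.cast_zero, zero_dvd_iff] at this
    omega

theorem vfin (h : Dih a b v) (x : α) (hn : 0 < MulAction.period (b * a) x) :
    Set.range v = (fun k : ℕ => v (((b * a) ^ k) x)) '' (Finset.range (MulAction.period (b * a) x) : Set ℕ) := by
  rw [vreach h x]
  apply Set.Subset.antisymm
  · rintro _ ⟨k, rfl⟩
    set n := MulAction.period (b * a) x with hndef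
    have hn' : (0 : ℤ) < n := by exact_mod_cast hn
    have h1 : 0 ≤ k % n := Int.emod_nonneg _ hn'.ne'
    have h3 : k % n < n := Int.emod_lt_of_pos _ hn'
    obtain ⟨m, hm⟩ := Int.eq_ofNat_of_zero_le h1
    refine ⟨m, ?_, ?_⟩
    · rw [Finset.coe_range, Set.mem_Iio]
      omega
    · have h4 : ((b * a) ^ (n * (k / n))) x = x := by
        rw [per_iff]
        exact dvd_mul_right _ _
      have h5 : ((b * a) ^ k) x = ((b * a) ^ m) x := by
        have h6 : k = (m : ℤ) + n * (k / n) := by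
          have := Int.emod_add_mul_ediv k n
          omega
        conv_lhs => rw [h6, zpow_add, zpow_natCast, Equiv.Perm.mul_apply]
        rw [h4]
      show v (((b * a) ^ m) x) = v (((b * a) ^ k) x)
      rw [h5]
  · rintro _ ⟨k, -, rfl⟩
    exact ⟨(k : ℤ), by simp only [zpow_natCast]⟩

theorem enc_pos (h : Dih a b v) (x : α) (hn : 0 < MulAction.period (b * a) x) :
    (Set.range v).encard = (MulAction.period (b * a) x : ℕ) := by
  rw [vfin h x hn, Set.InjOn.encard_image]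
  · rw [Set.encard_coe_eq_coe_finsetCard, Finset.card_range]
  · intro i hi j hj hij
    rw [Finset.coe_range, Set.mem_Iio] at hi hj
    have hij' : v (((b * a) ^ (i : ℤ)) x) = v (((b * a) ^ (j : ℤ)) x) := by
      rw [zpow_natCast, zpow_natCast]
      exact hij
    rcases le_total i j with hle | hle
    · have := retz h i j (by exact_mod_cast hle) x hij'
      rw [per_iff] at this
      have h1 := Int.eq_zero_of_dvd_of_nonneg_of_lt (by omega) (by omega) this
      omega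
    · have := retz h j i (by exact_mod_cast hle) x hij'.symm
      rw [per_iff] at this
      have h1 := Int.eq_zero_of_dvd_of_nonneg_of_lt (by omega) (by omega) this
      omega

theorem walk (Ψ : ℕ → α) (h0 : ∀ k, Ψ (2 * k + 1) = a (Ψ (2 * k)))
    (h1 : ∀ k, Ψ (2 * k + 2) = b (Ψ (2 * k + 1))) (k : ℕ) : Ψ (2 * k) = ((b * a) ^ k) (Ψ 0) := by
  induction k with
  | zero => rfl
  | succ k ih =>
    have e1 : 2 * (k + 1) = 2 * k + 2 := by ring
    rw [e1, h1, h0, ih, pow_succ']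
    rfl

theorem main (h : Dih a b v) (Ψ : ℕ → α) (h0 : ∀ k, Ψ (2 * k + 1) = a (Ψ (2 * k)))
    (h1 : ∀ k, Ψ (2 * k + 2) = b (Ψ (2 * k + 1))) (p : ℕ∞) (hp : (Set.range v).encard = p) :
    (∀ m : ℕ, 0 < m → (v (Ψ (2 * m)) = v (Ψ 0) ↔ ∃ n : ℕ, p = n ∧ n ∣ m)) ∧
    (∀ m : ℕ, v (Ψ (2 * m)) = v (Ψ 0) → Ψ (2 * m) = Ψ 0) ∧
    ∀ n : ℕ, p = n → Set.range v = {x | ∃ k, x = v (Ψ (2 * k))} := by
  have hw := walk Ψ h0 h1
  have hret : ∀ m : ℕ, v (Ψ (2 * m)) = v (Ψ 0) → Ψ (2 * m) = Ψ 0 := by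
    intro m hm
    rw [hw] at hm ⊢
    exact ret h m _ hm
  have hiff : ∀ m : ℕ, v (Ψ (2 * m)) = v (Ψ 0) ↔ MulAction.period (b * a) (Ψ 0) ∣ m := by
    intro m
    have h3 := per_iff (a := a) (b := b) (m : ℤ) (Ψ 0)
    rw [zpow_natCast, ← hw, Int.natCast_dvd_natCast] at h3
    rw [← h3]
    exact ⟨hret m, fun h => by rw [h]⟩
  refine ⟨?_, hret, ?_⟩
  · intro m hm
    rw [hiff]
    rcases Nat.eq_zero_or_pos (MulAction.period (b * a) (Ψ 0)) with hn | hn
    · rw [hn, Nat.zero_dvd]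
      constructor
      · intro h; omega
      · rintro ⟨n, hn1, -⟩
        rw [← hp, enc_zero h _ hn] at hn1
        exact absurd hn1 (by simp)
    · have h3 := enc_pos h (Ψ 0) hn
      rw [hp] at h3
      constructor
      · intro h4
        exact ⟨_, h3, h4⟩
      · rintro ⟨n, hn1, hn2⟩
        rw [hn1] at h3
        rw [← Nat.cast_inj.mp h3]
        exact hn2
  · intro n hn
    have hpos : 0 < MulAction.period (b * a) (Ψ 0) := by
      rcases Nat.eq_zero_or_pos (MulAction.period (b * a) (Ψ 0)) with hn0 | hn0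
      · rw [← hp, enc_zero h _ hn0] at hn
        exact absurd hn (by simp)
      · exact hn0
    apply Set.Subset.antisymm
    · rw [vfin h (Ψ 0) hpos]
      rintro _ ⟨k, -, rfl⟩
      exact ⟨k, by rw [hw]⟩
    · rintro _ ⟨k, rfl⟩
      exact ⟨_, rfl⟩

end

section rel
variable {α β : Type}

/-- the permutation of a symmetric functional relation -/
noncomputable def prm (R : α → α → Prop) (hs : ∀ x y, R x y → R y x) (hu : ∀ x, ∃! y, R x y) : Equiv.Perm α :=
  Function.Involutive.toPerm (fun x => (hu x).choose) (by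
    intro x
    have h1 := (hu x).choose_spec
    have h3 := (hu (hu x).choose).choose_spec
    exact (h3.2 x (hs _ _ h1.1)).symm)

theorem prm_iff (R : α → α → Prop) (hs : ∀ x y, R x y → R y x) (hu : ∀ x, ∃! y, R x y) (x y : α) :
    y = prm R hs hu x ↔ R x y := by
  constructor
  · rintro rfl
    exact (hu x).choose_spec.1
  · intro h
    exact (hu x).choose_spec.2 y h

theorem prm_rel (R : α → α → Prop) (hs : ∀ x y, R x y → R y x) (hu : ∀ x, ∃! y, R x y) (x : α) :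
    R x (prm R hs hu x) := (prm_iff R hs hu x _).mp rfl

theorem prm_prm (R : α → α → Prop) (hs : ∀ x y, R x y → R y x) (hu : ∀ x, ∃! y, R x y) (x : α) :
    prm R hs hu (prm R hs hu x) = x :=
  ((prm_iff R hs hu _ _).mpr (hs _ _ (prm_rel R hs hu x))).symm

theorem dih_of (R S : α → α → Prop) (hs : ∀ x y, R x y → R y x) (hu : ∀ x, ∃! y, R x y) (hn : ∀ x, ¬ R x x)
    (hs' : ∀ x y, S x y → S y x) (hu' : ∀ x, ∃! y, S x y) (hn' : ∀ x, ¬ S x x) (v : α → β)
    (hv : ∀ x y, v x = v y ↔ x = y ∨ S x y) (ht : ∀ x y, Relation.ReflTransGen (fun s t => R s t ∨ S s t) x y) :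
    Dih (prm R hs hu) (prm S hs' hu') v := by
  refine ⟨prm_prm R hs hu, prm_prm S hs' hu', ?_, ?_, ?_, ?_⟩
  · intro x hx
    have := prm_rel R hs hu x
    rw [hx] at this
    exact hn x this
  · intro x hx
    have := prm_rel S hs' hu' x
    rw [hx] at this
    exact hn' x this
  · intro x y
    rw [hv, prm_iff]
  · intro x y
    refine Relation.ReflTransGen.mono (fun s t hst => ?_) _ _ (ht x y)
    rw [prm_iff, prm_iff]
    exact hst

end rel

theorem pf_CYF (hF : T_FLA) : T_CYF := by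
  intro K Ψ p hK hΨ hp
  set f := (Ψ 0).2.2 with hf
  have hfl : ∀ k, Fl K (Ψ k) ∧ (Ψ k).2.2 = f := by
    have hev : ∀ k, Fl K (Ψ (2 * k)) ∧ (Ψ (2 * k)).2.2 = f := by
      intro k
      induction k with
      | zero => exact ⟨(hΨ 0).1.1, rfl⟩
      | succ k ih =>
        obtain ⟨h1, h3⟩ := hΨ k
        refine ⟨h3.2.1, ?_⟩
        have e1 := h1.2.2.2.2
        have e3 := h3.2.2.2.2
        rw [show 2 * (k + 1) = 2 * k + 2 by ring, ← e3, ← e1]
        exact ih.2
    intro k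
    rcases Nat.even_or_odd' k with ⟨m, rfl | rfl⟩
    · exact hev m
    · obtain ⟨h1, h3⟩ := hΨ m
      refine ⟨h1.2.1, ?_⟩
      rw [← h1.2.2.2.2]
      exact (hev m).2
  have hfF : f ∈ K.F := (hfl 0).1.2.2
  set A := {Φ : Fg // Fl K Φ ∧ Φ.2.2 = f} with hA
  have hs : ∀ x y : A, A0 K x.1 y.1 → A0 K y.1 x.1 := by
    rintro x y ⟨h1, h3, h4, h5, h6⟩
    exact ⟨h3, h1, h4.symm, h5.symm, h6.symm⟩
  have hs' : ∀ x y : A, A1 K x.1 y.1 → A1 K y.1 x.1 := by
    rintro x y ⟨h1, h3, h4, h5, h6⟩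
    exact ⟨h3, h1, h4.symm, h5.symm, h6.symm⟩
  have hu : ∀ x : A, ∃! y : A, A0 K x.1 y.1 := by
    intro x
    obtain ⟨y, hy, hyu⟩ := (hF K hK x.1 x.2.1).1
    refine ⟨⟨y, hy.2.1, by rw [← hy.2.2.2.2]; exact x.2.2⟩, hy, ?_⟩
    intro z hz
    exact Subtype.ext (hyu z.1 hz)
  have hu' : ∀ x : A, ∃! y : A, A1 K x.1 y.1 := by
    intro x
    obtain ⟨y, hy, hyu⟩ := (hF K hK x.1 x.2.1).2.1
    refine ⟨⟨y, hy.2.1, by rw [← hy.2.2.2.2]; exact x.2.2⟩, hy, ?_⟩
    intro z hz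
    exact Subtype.ext (hyu z.1 hz)
  have hn : ∀ x : A, ¬ A0 K x.1 x.1 := fun x h => h.2.2.1 rfl
  have hn' : ∀ x : A, ¬ A1 K x.1 x.1 := fun x h => h.2.2.2.1 rfl
  have hv : ∀ x y : A, x.1.1 = y.1.1 ↔ x = y ∨ A1 K x.1 y.1 := by
    intro x y
    constructor
    · intro h
      by_cases he : x.1.2.1 = y.1.2.1
      · left
        apply Subtype.ext
        exact Prod.ext h (Prod.ext he (x.2.2.trans y.2.2.symm))
      · right
        exact ⟨x.2.1, y.2.1, h, he, x.2.2.trans y.2.2.symm⟩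
    · rintro (rfl | h)
      · rfl
      · exact h.2.2.1
  have hpt : ∀ x y : A, x.1.2.1 = y.1.2.1 → Relation.ReflTransGen (fun s t : A => A0 K s.1 t.1 ∨ A1 K s.1 t.1) x y := by
    intro x y h
    by_cases he : x.1.1 = y.1.1
    · have : x = y := Subtype.ext (Prod.ext he (Prod.ext h (x.2.2.trans y.2.2.symm)))
      rw [this]
    · exact Relation.ReflTransGen.single (Or.inl ⟨x.2.1, y.2.1, he, h, x.2.2.trans y.2.2.symm⟩)
  have hpv : ∀ x y : A, x.1.1 = y.1.1 → Relation.ReflTransGen (fun s t : A => A0 K s.1 t.1 ∨ A1 K s.1 t.1) x y := by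
    intro x y h
    rcases (hv x y).mp h with h1 | h1
    · rw [h1]
    · exact Relation.ReflTransGen.single (Or.inr h1)
  have ht : ∀ x y : A, Relation.ReflTransGen (fun s t : A => A0 K s.1 t.1 ∨ A1 K s.1 t.1) x y := by
    intro x
    have hxe : x.1.2.1 ∈ f := by
      have := x.2.1.2.1
      rw [x.2.2] at this
      exact this
    have key : ∀ e, Relation.ReflTransGen (fun a b => b ∈ f ∧ (a ∩ b).Nonempty) x.1.2.1 e → e ∈ f ∧
        ∀ y : A, y.1.2.1 = e → Relation.ReflTransGen (fun s t : A => A0 K s.1 t.1 ∨ A1 K s.1 t.1) x y := by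
      intro e he
      induction he with
      | refl => exact ⟨hxe, fun y hy => hpt x y hy.symm⟩
      | @tail e1 e2 _ h3 ih =>
        refine ⟨h3.1, ?_⟩
        intro y hy
        obtain ⟨z, hz1, hz2⟩ := h3.2
        have f1 : Fl K (z, e1, f) := ⟨hz1, ih.1, hfF⟩
        have f2 : Fl K (z, e2, f) := ⟨hz2, h3.1, hfF⟩
        have g1 := ih.2 ⟨(z, e1, f), f1, rfl⟩ rfl
        have g2 := hpv ⟨(z, e1, f), f1, rfl⟩ ⟨(z, e2, f), f2, rfl⟩ rfl
        have g3 := hpt ⟨(z, e2, f), f2, rfl⟩ y hy.symm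
        exact (g1.trans g2).trans g3
    intro y
    have hye : y.1.2.1 ∈ f := by
      have := y.2.1.2.1
      rw [y.2.2] at this
      exact this
    exact (key y.1.2.1 (hK.cf f hfF _ hxe _ hye)).2 y rfl
  have hD := dih_of (fun x y : A => A0 K x.1 y.1) (fun x y : A => A1 K x.1 y.1) hs hu hn hs' hu' hn'
    (fun x : A => x.1.1) hv ht
  have hr : Set.range (fun x : A => x.1.1) = vts f := by
    apply Set.Subset.antisymm
    · rintro _ ⟨x, rfl⟩
      refine ⟨x.1.2.1, ?_, x.2.1.1⟩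
      have := x.2.1.2.1
      rw [x.2.2] at this
      exact this
    · rintro x ⟨e, he, hx⟩
      exact ⟨⟨(x, e, f), ⟨hx, he, hfF⟩, rfl⟩, rfl⟩
  have hm := main hD (fun k => (⟨Ψ k, hfl k⟩ : A))
    (fun k => (prm_iff _ hs hu _ _).mpr (hΨ k).1) (fun k => (prm_iff _ hs' hu' _ _).mpr (hΨ k).2) p (by rw [hr]; exact hp)
  refine ⟨hm.1, ?_, ?_⟩
  · intro m h
    exact congrArg Subtype.val (hm.2.1 m h)
  · intro n hn
    rw [← hr]
    exact hm.2.2 n hn

theorem pf_CYV (hF : T_FLA) : T_CYV := by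
  intro K Ψ q hK hΨ hq
  set x0 := (Ψ 0).1 with hx0
  have hfl : ∀ k, Fl K (Ψ k) ∧ (Ψ k).1 = x0 := by
    have hev : ∀ k, Fl K (Ψ (2 * k)) ∧ (Ψ (2 * k)).1 = x0 := by
      intro k
      induction k with
      | zero => exact ⟨(hΨ 0).1.1, rfl⟩
      | succ k ih =>
        obtain ⟨h1, h3⟩ := hΨ k
        refine ⟨h3.2.1, ?_⟩
        have e1 := h1.2.2.1
        have e3 := h3.2.2.1
        rw [show 2 * (k + 1) = 2 * k + 2 by ring, ← e3, ← e1]
        exact ih.2
    intro k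
    rcases Nat.even_or_odd' k with ⟨m, rfl | rfl⟩
    · exact hev m
    · obtain ⟨h1, h3⟩ := hΨ m
      refine ⟨h1.2.1, ?_⟩
      rw [← h1.2.2.1]
      exact (hev m).2
  have hedE : ∀ e f, e ∈ f → f ∈ K.F → e ∈ K.E := fun e f he hf => (hK.fs f hf).1 he
  have hxV : x0 ∈ K.V := by
    have h1 := (hfl 0).1
    have h3 : (Ψ 0).2.1 ∈ K.E := hedE _ _ h1.2.1 h1.2.2
    obtain ⟨y, hy, z, hz, -, he⟩ := hK.ed _ h3
    have h4 : x0 ∈ (Ψ 0).2.1 := h1.1
    rw [he] at h4
    rcases h4 with h4 | h4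
    · rw [h4]; exact hy
    · rw [Set.mem_singleton_iff] at h4
      rw [h4]; exact hz
  set A := {Φ : Fg // Fl K Φ ∧ Φ.1 = x0} with hA
  have hs : ∀ x y : A, A1 K x.1 y.1 → A1 K y.1 x.1 := by
    rintro x y ⟨h1, h3, h4, h5, h6⟩
    exact ⟨h3, h1, h4.symm, h5.symm, h6.symm⟩
  have hs' : ∀ x y : A, A2 K x.1 y.1 → A2 K y.1 x.1 := by
    rintro x y ⟨h1, h3, h4, h5, h6⟩
    exact ⟨h3, h1, h4.symm, h5.symm, h6.symm⟩
  have hu : ∀ x : A, ∃! y : A, A1 K x.1 y.1 := by
    intro x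
    obtain ⟨y, hy, hyu⟩ := (hF K hK x.1 x.2.1).2.1
    refine ⟨⟨y, hy.2.1, by rw [← hy.2.2.1]; exact x.2.2⟩, hy, ?_⟩
    intro z hz
    exact Subtype.ext (hyu z.1 hz)
  have hu' : ∀ x : A, ∃! y : A, A2 K x.1 y.1 := by
    intro x
    obtain ⟨y, hy, hyu⟩ := (hF K hK x.1 x.2.1).2.2
    refine ⟨⟨y, hy.2.1, by rw [← hy.2.2.1]; exact x.2.2⟩, hy, ?_⟩
    intro z hz
    exact Subtype.ext (hyu z.1 hz)
  have hn : ∀ x : A, ¬ A1 K x.1 x.1 := fun x h => h.2.2.2.1 rfl
  have hn' : ∀ x : A, ¬ A2 K x.1 x.1 := fun x h => h.2.2.2.2 rfl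
  have hv : ∀ x y : A, x.1.2.1 = y.1.2.1 ↔ x = y ∨ A2 K x.1 y.1 := by
    intro x y
    constructor
    · intro h
      by_cases he : x.1.2.2 = y.1.2.2
      · left
        apply Subtype.ext
        exact Prod.ext (x.2.2.trans y.2.2.symm) (Prod.ext h he)
      · right
        exact ⟨x.2.1, y.2.1, x.2.2.trans y.2.2.symm, h, he⟩
    · rintro (rfl | h)
      · rfl
      · exact h.2.2.2.1
  have hpf : ∀ x y : A, x.1.2.2 = y.1.2.2 → Relation.ReflTransGen (fun s t : A => A1 K s.1 t.1 ∨ A2 K s.1 t.1) x y := by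
    intro x y h
    by_cases he : x.1.2.1 = y.1.2.1
    · have : x = y := Subtype.ext (Prod.ext (x.2.2.trans y.2.2.symm) (Prod.ext he h))
      rw [this]
    · exact Relation.ReflTransGen.single (Or.inl ⟨x.2.1, y.2.1, x.2.2.trans y.2.2.symm, he, h⟩)
  have hpe : ∀ x y : A, x.1.2.1 = y.1.2.1 → Relation.ReflTransGen (fun s t : A => A1 K s.1 t.1 ∨ A2 K s.1 t.1) x y := by
    intro x y h
    rcases (hv x y).mp h with h1 | h1
    · rw [h1]
    · exact Relation.ReflTransGen.single (Or.inr h1)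
  have ht : ∀ x y : A, Relation.ReflTransGen (fun s t : A => A1 K s.1 t.1 ∨ A2 K s.1 t.1) x y := by
    intro x
    have hxe : x0 ∈ x.1.2.1 := by
      have := x.2.1.1
      rw [x.2.2] at this
      exact this
    have key : ∀ e, Relation.ReflTransGen (fun a b => x0 ∈ b ∧ ∃ f ∈ K.F, a ∈ f ∧ b ∈ f) x.1.2.1 e → x0 ∈ e ∧
        ∀ y : A, y.1.2.1 = e → Relation.ReflTransGen (fun s t : A => A1 K s.1 t.1 ∨ A2 K s.1 t.1) x y := by
      intro e he
      induction he with
      | refl => exact ⟨hxe, fun y hy => hpe x y hy.symm⟩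
      | @tail e1 e2 _ h3 ih =>
        refine ⟨h3.1, ?_⟩
        intro y hy
        obtain ⟨f, hfF, hf1, hf2⟩ := h3.2
        have f1 : Fl K (x0, e1, f) := ⟨ih.1, hf1, hfF⟩
        have f2 : Fl K (x0, e2, f) := ⟨h3.1, hf2, hfF⟩
        have g1 := ih.2 ⟨(x0, e1, f), f1, rfl⟩ rfl
        have g2 := hpf ⟨(x0, e1, f), f1, rfl⟩ ⟨(x0, e2, f), f2, rfl⟩ rfl
        have g3 := hpe ⟨(x0, e2, f), f2, rfl⟩ y hy.symm
        exact (g1.trans g2).trans g3
    intro y
    have hye : x0 ∈ y.1.2.1 := by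
      have := y.2.1.1
      rw [y.2.2] at this
      exact this
    exact (key y.1.2.1 (hK.cv x0 hxV _ (hedE _ _ x.2.1.2.1 x.2.1.2.2) hxe _ (hedE _ _ y.2.1.2.1 y.2.1.2.2) hye)).2 y rfl
  have hD := dih_of (fun x y : A => A1 K x.1 y.1) (fun x y : A => A2 K x.1 y.1) hs hu hn hs' hu' hn'
    (fun x : A => x.1.2.1) hv ht
  have hr : Set.range (fun x : A => x.1.2.1) = eds K x0 := by
    apply Set.Subset.antisymm
    · rintro _ ⟨x, rfl⟩
      refine ⟨hedE _ _ x.2.1.2.1 x.2.1.2.2, ?_⟩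
      have := x.2.1.1
      rw [x.2.2] at this
      exact this
    · rintro e ⟨he, hx⟩
      have h3 : {f | f ∈ K.F ∧ e ∈ f}.Nonempty := by
        apply Set.nonempty_of_ncard_ne_zero
        rw [hK.ef e he]
        norm_num
      obtain ⟨f, hf⟩ := h3
      exact ⟨⟨(x0, e, f), ⟨hx, hf.2, hf.1⟩, rfl⟩, rfl⟩
  have hm := main hD (fun k => (⟨Ψ k, hfl k⟩ : A))
    (fun k => (prm_iff _ hs hu _ _).mpr (hΨ k).1) (fun k => (prm_iff _ hs' hu' _ _).mpr (hΨ k).2) q (by rw [hr]; exact hq)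
  refine ⟨hm.1, ?_, ?_⟩
  · intro m h
    exact congrArg Subtype.val (hm.2.1 m h)
  · intro n hn
    rw [← hr]
    exact hm.2.2 n hn

end Pool.Agent.H32.TOH
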