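import Mathlib
import Pool.Agent.H39.TO.Targets

/-!
# Row QFI of the board toh_modules: finite degrees
-/

namespace Pool.Agent.H32.TOH

open Pool.Agent.H57.CP Pool.Agent.H39.TO

theorem pf_QFI (hB : T_BAL) : T_QFI := by
  classical
  intro K hK h2 n hn htop
  obtain ⟨x, hx, hxn⟩ := hn
  rw [htop] at hxn
  have hinf : (eds K x).Infinite := Set.encard_eq_top_iff.mp hxn
  have hface : ∀ e : Set H3, ∃ f : Set (Set H3), e ∈ eds K x → f ∈ K.F ∧ e ∈ f := by
    intro e
    by_cases he : e ∈ eds K x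
    · have h1 := hK.ef e he.1
      have h3 : {f | f ∈ K.F ∧ e ∈ f}.Nonempty := by
        apply Set.nonempty_of_ncard_ne_zero
        rw [h1]
        norm_num
      obtain ⟨f, hf⟩ := h3
      exact ⟨f, fun _ => hf⟩
    · exact ⟨∅, fun h => absurd h he⟩
  choose fc hfc using hface
  have hfl : ∀ e ∈ eds K x, Fl K (x, e, fc e) := fun e he => ⟨he.2, (hfc e he).2, (hfc e he).1⟩
  -- infinitely many edges are equivalent to one of them
  obtain ⟨e0, he0, hI⟩ : ∃ e0 ∈ eds K x, {e | e ∈ eds K x ∧ Eqv K (x, e0, fc e0) (x, e, fc e)}.Infinite := by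
    obtain ⟨e1, he1⟩ := hinf.nonempty
    by_cases h1 : {e | e ∈ eds K x ∧ Eqv K (x, e1, fc e1) (x, e, fc e)}.Infinite
    · exact ⟨e1, he1, h1⟩
    · rw [Set.not_infinite] at h1
      have h3 : (eds K x \ {e | e ∈ eds K x ∧ Eqv K (x, e1, fc e1) (x, e, fc e)}).Infinite := hinf.sdiff h1
      obtain ⟨e2, he2⟩ := h3.nonempty
      refine ⟨e2, he2.1, h3.mono ?_⟩
      intro e he
      refine ⟨he.1, ?_⟩
      rcases h2.le_two _ _ _ (hfl e1 he1) (hfl e2 he2.1) (hfl e he.1) with h | h | h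
      · exact absurd ⟨he2.1, h⟩ he2.2
      · exact h
      · exact absurd ⟨he.1, h⟩ he.2
  obtain ⟨y, hy, z, hz, hyz, hyze⟩ := hK.ed e0 he0.1
  obtain ⟨w, hw, hxw, hew⟩ : ∃ w ∈ K.V, x ≠ w ∧ e0 = {x, w} := by
    have hxe := he0.2
    rw [hyze] at hxe
    rcases hxe with h | h
    · exact ⟨z, hz, by rw [h]; exact hyz, by rw [h]; exact hyze⟩
    · rw [Set.mem_singleton_iff] at h
      exact ⟨y, hy, by rw [h]; exact hyz.symm, by rw [h, Set.pair_comm]; exact hyze⟩
  set I := {e | e ∈ eds K x ∧ Eqv K (x, e0, fc e0) (x, e, fc e)} with hIdef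
  have hg : ∀ e : Set H3, ∃ g : Equiv.Perm H3, e ∈ I → Sy K g ∧ g x = x ∧ g '' e0 = e := by
    intro e
    by_cases he : e ∈ I
    · obtain ⟨g, hg1, hg2⟩ := he.2
      refine ⟨g, fun _ => ⟨hg1, congrArg Prod.fst hg2, congrArg (fun t : Fg => t.2.1) hg2⟩⟩
    · exact ⟨1, fun h => absurd h he⟩
  choose g hgs using hg
  have hge : ∀ e ∈ I, e = {x, g e w} := by
    intro e he
    obtain ⟨h1, h3, h4⟩ := hgs e he
    have h5 : g e '' e0 = e := h4
    rw [hew, Set.image_pair, h3] at h5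
    exact h5.symm
  set W := (fun e => g e w) '' I with hWdef
  have hWinf : W.Infinite := by
    apply hI.image
    intro e he e' he' hh
    have hh' : g e w = g e' w := hh
    rw [hge e he, hge e' he', hh']
  obtain ⟨ε, hε, hdis⟩ := hK.dis w hw
  have hsep : ∀ a ∈ W, ∀ b ∈ W, a ≠ b → 1 + ε ≤ ch a b := by
    rintro _ ⟨e, he, rfl⟩ _ ⟨e', he', rfl⟩ hab
    obtain ⟨h1, h3, h4⟩ := hgs e he
    obtain ⟨h1', h3', h4'⟩ := hgs e' he'
    have hinvv : (g e).symm (g e' w) ∈ K.V := by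
      rw [← h1.v, Equiv.apply_symm_apply, h1'.v]
      exact hw
    have hne : (g e).symm (g e' w) ≠ w := by
      intro h
      apply hab
      have := congrArg (g e) h
      rw [Equiv.apply_symm_apply] at this
      exact this.symm
    have h5 := hdis _ hinvv hne
    have h6 := h1.iso w ((g e).symm (g e' w))
    rw [Equiv.apply_symm_apply] at h6
    show 1 + ε ≤ ch (g e w) (g e' w)
    rw [h6]
    exact h5
  have hfin := hB W ε hε hsep x (ch x w)
  apply hWinf
  refine hfin.subset ?_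
  rintro _ ⟨e, he, rfl⟩
  refine ⟨⟨e, he, rfl⟩, ?_⟩
  obtain ⟨h1, h3, h4⟩ := hgs e he
  have h6 := h1.iso x w
  rw [h3] at h6
  exact h6.le

end Pool.Agent.H32.TOH
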